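import Pool.Agent.H42.Loc2

open Pool.Agent.H42.LocDefs

theorem Pool.Agent.Results.MP_339868_lc.No.result :
    ∃ B : Set (Set LOC), CompleteSub B ∧ Atomless B ∧ ¬ AddsCohen B :=
  Pool.Agent.H42.Loc2.main
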